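import Pool.Agent.Y727.PSP.Stm

/-!
# PSP-SLF: the strong linear forms condition from iterated Cauchy-Schwarz
-/

set_option autoImplicit false

open Finset

namespace Pool.Agent.Y317.PSP

open Pool.Agent.H602R3.DHJ Pool.Agent.Y727.PSP

variable {J V : Type} [DecidableEq J]

theorem sl_sw (ω : Finset J) (y : J → V × V) : sl ∅ (sw ω y) = sl ω y := by
  funext i
  unfold sl sw
  by_cases hi : i ∈ ω
  · simp [hi]
  · simp [hi]

theorem sl_sw_insert {j : J} {ω : Finset J} (hj : j ∉ ω) (y : J → V × V) :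
    sl {j} (sw ω y) = sl (insert j ω) y := by
  funext i
  unfold sl sw
  by_cases hij : i = j
  · subst hij
    simp [hj]
  · by_cases hi : i ∈ ω
    · simp [hi, hij]
    · simp [hi, hij]

theorem sl_update_of_notMem {i : J} {T : Finset J} (hi : i ∉ T) (y : J → V × V) (w : V × V) :
    sl T (Function.update y i w) = Function.update (sl T y) i w.1 := by
  funext k
  unfold sl
  by_cases hk : k = i
  · subst hk
    simp [hi]
  · simp [hk]

theorem sl_update_snd {i : J} {T : Finset J} (hi : i ∉ T) (y : J → V × V) (v : V) :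
    sl T (Function.update y i ((y i).1, v)) = sl T y := by
  rw [sl_update_of_notMem hi]
  funext k
  by_cases hk : k = i
  · subst hk
    unfold sl
    simp [hi]
  · simp [hk]

/-- the pairs attached to a coordinate -/
def TT (b : Bool → J → Bool) (j i : J) (D : Finset J) : Finset (J × Finset J) :=
  ((if b false i = true then D.powerset else ∅).image fun ω => (i, ω)) ∪
    ((if b true i = true then D.powerset else ∅).image fun ω => (i, insert j ω))

theorem mem_TT {b : Bool → J → Bool} {j i : J} {D : Finset J} (hi : i ∉ D) (hij : i ≠ j)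
    {t : J × Finset J} (ht : t ∈ TT b j i D) : t.1 = i ∧ i ∉ t.2 := by
  unfold TT at ht
  rw [mem_union, mem_image, mem_image] at ht
  rcases ht with ⟨ω, hω, rfl⟩ | ⟨ω, hω, rfl⟩
  · refine ⟨rfl, fun h => ?_⟩
    have hω' : ω ∈ D.powerset := by
      split_ifs at hω with hb
      · exact hω
      · simp at hω
    exact hi (mem_powerset.1 hω' h)
  · refine ⟨rfl, fun h => ?_⟩
    have hω' : ω ∈ D.powerset := by
      split_ifs at hω with hb
      · exact hω
      · simp at hω
    rcases mem_insert.1 h with h | h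
    · exact hij h
    · exact hi (mem_powerset.1 hω' h)

theorem prod_TT (ν : J → (J → V) → ℝ) (b : Bool → J → Bool) {j i : J} {D : Finset J}
    (hj : j ∉ D) (y : J → V × V) :
    ∏ ω ∈ D.powerset, ((if b false i = true then ν i (sl ∅ (sw ω y)) else 1) *
      (if b true i = true then ν i (sl {j} (sw ω y)) else 1)) =
    ∏ t ∈ TT b j i D, ν t.1 (sl t.2 y) := by
  have hjω : ∀ ω ∈ D.powerset, j ∉ ω := fun ω hω h => hj (mem_powerset.1 hω h)
  unfold TT
  rw [prod_union, prod_mul_distrib, prod_image, prod_image]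
  · congr 1
    · split_ifs with hb
      · refine prod_congr rfl fun ω _ => ?_
        rw [sl_sw]
      · simp
    · split_ifs with hb
      · refine prod_congr rfl fun ω hω => ?_
        rw [sl_sw_insert (hjω ω hω)]
      · simp
  · intro ω hω ω' hω' h
    have h1 : ω ∈ D.powerset := by
      have := hω
      split_ifs at this with hb
      · exact this
      · simp at this
    have h1' : ω' ∈ D.powerset := by
      have := hω'
      split_ifs at this with hb
      · exact this
      · simp at this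
    have h2 : insert j ω = insert j ω' := (Prod.mk.inj h).2
    have h3 := congrArg (fun s => s.erase j) h2
    simpa [erase_insert (hjω ω h1), erase_insert (hjω ω' h1')] using h3
  · intro ω _ ω' _ h
    exact (Prod.mk.inj h).2
  · rw [disjoint_left]
    intro t h1 h2
    rw [mem_image] at h1 h2
    obtain ⟨ω, hω, rfl⟩ := h1
    obtain ⟨ω', hω', h⟩ := h2
    have h3 : ω ∈ D.powerset := by
      split_ifs at hω with hb
      · exact hω
      · simp at hω
    have h4 : insert j ω' = ω := (Prod.mk.inj h).2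
    exact hjω ω h3 (h4 ▸ mem_insert_self j ω')

/-- **PSP-SLF** -/
theorem slf (hCS : S_CS) : S_SLF := by
  intro J _ _ ε hε
  set n : ℕ := Fintype.card J - 1 with hn
  set η : ℝ := min 1 (ε ^ (2 ^ n) / ((2 : ℝ) ^ (2 ^ n - 1) * 2 ^ (2 ^ n))) with hη
  have hη0 : 0 < η := by
    rw [hη]
    exact lt_min one_pos (by positivity)
  have hη1 : η ≤ 1 := min_le_left _ _
  refine ⟨η, hη0, ?_⟩
  intro V _ _ ν hν0 hνI hLF j g b hgI hgb
  set D : Finset J := univ.erase j with hD
  have hjD : j ∉ D := notMem_erase _ _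
  have hcard : D.card = n := by
    rw [hD, card_erase_of_mem (mem_univ _), card_univ]
  set μ : J → (J → V × V) → ℝ := fun i y =>
    (if b false i = true then ν i (sl ∅ y) else 1) * (if b true i = true then ν i (sl {j} y) else 1)
    with hμ
  set G : J → (J → V × V) → ℝ := fun i y => g false i (sl ∅ y) * g true i (sl {j} y) with hG
  have hmem : ∀ i ∈ D, i ∉ ({j} : Finset J) := fun i hi h => hjD (mem_singleton.1 h ▸ hi)
  have hne : ∀ i ∈ D, i ≠ j := fun i hi h => hjD (h ▸ hi)
  -- products over a system of pairs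
  have hLF' := hLF
  unfold LF at hLF'
  have key7 : ∀ i ∈ D, ∀ D' ⊆ D.erase i,
      av (fun y : J → V × V => ∏ ω ∈ D'.powerset, μ i (sw ω y)) ≤ 2 := by
    intro i hi D' hD'
    have hiD' : i ∉ D' := fun h => (notMem_erase i D) (hD' h)
    have hjD' : j ∉ D' := fun h => hjD (mem_of_mem_erase (hD' h))
    have e : (fun y : J → V × V => ∏ ω ∈ D'.powerset, μ i (sw ω y)) =
        fun y => ∏ t ∈ TT b j i D', ν t.1 (sl t.2 y) := by
      funext y
      exact prod_TT ν b hjD' y
    rw [e]
    have h1 := hLF' (TT b j i D') (fun t ht => by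
      have := mem_TT hiD' (hne i hi) ht
      rw [this.1]
      exact this.2)
    have h2 := (abs_le.1 h1).2
    linarith
  have hcs := hCS J V D (fun y => ν j (sl ∅ y) - 1) G μ 2 one_le_two
    (by
      intro i hi y v
      simp only [sl_update_snd (notMem_empty i)])
    (by
      intro k hk i hi y v
      simp only [hG, sl_update_snd (notMem_empty i), sl_update_snd (hmem i hi)])
    (by
      intro k hk i hi y v
      simp only [hμ, sl_update_snd (notMem_empty i), sl_update_snd (hmem i hi)])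
    (by
      intro k hk y w
      simp only [hG, sl_update_of_notMem (notMem_empty k), sl_update_of_notMem (hmem k hk)]
      rw [hgI false k, hgI true k])
    (by
      intro k hk y w
      simp only [hμ, sl_update_of_notMem (notMem_empty k), sl_update_of_notMem (hmem k hk)]
      rw [hνI k, hνI k])
    (by
      intro k hk y
      simp only [hG, hμ]
      rw [abs_mul]
      have h1 := hgb false k (sl ∅ y)
      have h2 := hgb true k (sl {j} y)
      exact mul_le_mul h1 h2 (abs_nonneg _) ((abs_nonneg _).trans h1))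
    key7
  -- the right hand average
  set T₀ : Finset (J × Finset J) := D.biUnion fun i => TT b j i (D.erase i) with hT₀
  have hT₀mem : ∀ t ∈ T₀, t.1 ∈ D ∧ t.1 ∉ t.2 := by
    intro t ht
    rw [hT₀, mem_biUnion] at ht
    obtain ⟨i, hi, hti⟩ := ht
    have := mem_TT (notMem_erase i D) (hne i hi) hti
    rw [this.1]
    exact ⟨hi, this.2⟩
  have hprod₀ : ∀ y : J → V × V, ∏ i ∈ D, ∏ ω ∈ (D.erase i).powerset, μ i (sw ω y) =
      ∏ t ∈ T₀, ν t.1 (sl t.2 y) := by
    intro y
    rw [hT₀, prod_biUnion]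
    · refine prod_congr rfl fun i hi => ?_
      exact prod_TT ν b (fun h => hjD (mem_of_mem_erase h)) y
    · intro i hi i' hi' hii'
      rw [Function.onFun, disjoint_left]
      intro t h1 h2
      have e1 := (mem_TT (notMem_erase i D) (hne i hi) h1).1
      have e2 := (mem_TT (notMem_erase i' D) (hne i' hi') h2).1
      exact hii' (e1.symm.trans e2)
  have hexp : ∀ y : J → V × V, ∏ ω ∈ D.powerset, (ν j (sl ∅ (sw ω y)) - 1) =
      ∑ S ∈ D.powerset.powerset, (-1 : ℝ) ^ (D.powerset \ S).card * ∏ ω ∈ S, ν j (sl ω y) := by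
    intro y
    have h1 : ∀ ω ∈ D.powerset, ν j (sl ∅ (sw ω y)) - 1 = ν j (sl ω y) + (-1) := by
      intro ω _
      rw [sl_sw]
      ring
    rw [prod_congr rfl h1, prod_add]
    refine sum_congr rfl fun S _ => ?_
    rw [prod_const, mul_comm]
  have hTS : ∀ S ∈ D.powerset.powerset, ∀ y : J → V × V,
      (∏ ω ∈ S, ν j (sl ω y)) * ∏ t ∈ T₀, ν t.1 (sl t.2 y) =
      ∏ t ∈ (S.image fun ω => (j, ω)) ∪ T₀, ν t.1 (sl t.2 y) := by
    intro S hS y
    rw [prod_union, prod_image]
    · intro ω _ ω' _ h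
      exact (Prod.mk.inj h).2
    · rw [disjoint_left]
      intro t h1 h2
      rw [mem_image] at h1
      obtain ⟨ω, hω, rfl⟩ := h1
      exact hjD (hT₀mem _ h2).1
  have hLFS : ∀ S ∈ D.powerset.powerset,
      |av (fun y : J → V × V => (∏ ω ∈ S, ν j (sl ω y)) * ∏ t ∈ T₀, ν t.1 (sl t.2 y)) - 1| ≤ η := by
    intro S hS
    have e : (fun y : J → V × V => (∏ ω ∈ S, ν j (sl ω y)) * ∏ t ∈ T₀, ν t.1 (sl t.2 y)) =
        fun y => ∏ t ∈ (S.image fun ω => (j, ω)) ∪ T₀, ν t.1 (sl t.2 y) := funext (hTS S hS)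
    rw [e]
    refine hLF' _ fun t ht => ?_
    rcases mem_union.1 ht with h | h
    · rw [mem_image] at h
      obtain ⟨ω, hω, rfl⟩ := h
      have h2 : ω ∈ D.powerset := (mem_powerset.1 hS) hω
      exact fun h3 => hjD (mem_powerset.1 h2 h3)
    · exact (hT₀mem t h).2
  have hR : |av (fun y : J → V × V => (∏ ω ∈ D.powerset, (ν j (sl ∅ (sw ω y)) - 1)) *
      ∏ i ∈ D, ∏ ω ∈ (D.erase i).powerset, μ i (sw ω y))| ≤ 2 ^ (2 ^ n) * η := by
    have e : (fun y : J → V × V => (∏ ω ∈ D.powerset, (ν j (sl ∅ (sw ω y)) - 1)) *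
        ∏ i ∈ D, ∏ ω ∈ (D.erase i).powerset, μ i (sw ω y)) =
        fun y => ∑ S ∈ D.powerset.powerset, (-1 : ℝ) ^ (D.powerset \ S).card *
          ((∏ ω ∈ S, ν j (sl ω y)) * ∏ t ∈ T₀, ν t.1 (sl t.2 y)) := by
      funext y
      rw [hprod₀ y, hexp y, sum_mul]
      refine sum_congr rfl fun S _ => ?_
      ring
    rw [e, av_sum]
    have hz : ∑ S ∈ D.powerset.powerset, (-1 : ℝ) ^ (D.powerset \ S).card = 0 := by
      have h1 : ∏ _ω ∈ D.powerset, ((1 : ℝ) + (-1)) = 0 := by
        rw [prod_const]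
        rw [show (1 : ℝ) + (-1) = 0 by norm_num]
        exact zero_pow (card_ne_zero_of_mem (empty_mem_powerset D))
      rw [prod_add] at h1
      rw [← h1]
      refine sum_congr rfl fun S _ => ?_
      rw [prod_const, prod_const, one_pow, one_mul]
    have h2 : ∑ S ∈ D.powerset.powerset, av (fun y : J → V × V =>
        (-1 : ℝ) ^ (D.powerset \ S).card *
          ((∏ ω ∈ S, ν j (sl ω y)) * ∏ t ∈ T₀, ν t.1 (sl t.2 y))) =
        ∑ S ∈ D.powerset.powerset, (-1 : ℝ) ^ (D.powerset \ S).card *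
          (av (fun y : J → V × V => (∏ ω ∈ S, ν j (sl ω y)) * ∏ t ∈ T₀, ν t.1 (sl t.2 y)) - 1) := by
      have h3 : ∀ S : Finset (Finset J), (-1 : ℝ) ^ (D.powerset \ S).card *
          (av (fun y : J → V × V => (∏ ω ∈ S, ν j (sl ω y)) * ∏ t ∈ T₀, ν t.1 (sl t.2 y)) - 1) =
          (-1 : ℝ) ^ (D.powerset \ S).card *
          av (fun y : J → V × V => (∏ ω ∈ S, ν j (sl ω y)) * ∏ t ∈ T₀, ν t.1 (sl t.2 y)) -
          (-1 : ℝ) ^ (D.powerset \ S).card := fun S => by ring
      rw [sum_congr rfl fun S _ => h3 S, sum_sub_distrib, hz, sub_zero]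
      exact sum_congr rfl fun S _ => av_mul _ _
    rw [h2]
    refine (abs_sum_le_sum_abs _ _).trans ?_
    have h4 : ∀ S ∈ D.powerset.powerset, |(-1 : ℝ) ^ (D.powerset \ S).card *
        (av (fun y : J → V × V => (∏ ω ∈ S, ν j (sl ω y)) * ∏ t ∈ T₀, ν t.1 (sl t.2 y)) - 1)| ≤
        η := by
      intro S hS
      rw [abs_mul, abs_pow, abs_neg, abs_one, one_pow, one_mul]
      exact hLFS S hS
    refine (sum_le_sum h4).trans ?_
    rw [sum_const, card_powerset, card_powerset, hcard, nsmul_eq_mul]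
    push_cast
    exact le_rfl
  -- conclusion
  rw [hcard] at hcs
  have hfin : |av (fun y : J → V × V => (ν j (sl ∅ y) - 1) * ∏ i ∈ D, G i y)| ^ (2 ^ n) ≤
      ε ^ (2 ^ n) := by
    refine hcs.trans ?_
    calc (2 : ℝ) ^ (2 ^ n - 1) * |av (fun y : J → V × V =>
          (∏ ω ∈ D.powerset, (ν j (sl ∅ (sw ω y)) - 1)) *
          ∏ i ∈ D, ∏ ω ∈ (D.erase i).powerset, μ i (sw ω y))|
        ≤ (2 : ℝ) ^ (2 ^ n - 1) * (2 ^ (2 ^ n) * η) := by gcongr
      _ = ((2 : ℝ) ^ (2 ^ n - 1) * 2 ^ (2 ^ n)) * η := by ring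
      _ ≤ ((2 : ℝ) ^ (2 ^ n - 1) * 2 ^ (2 ^ n)) *
          (ε ^ (2 ^ n) / ((2 : ℝ) ^ (2 ^ n - 1) * 2 ^ (2 ^ n))) := by
          gcongr
          exact min_le_right _ _
      _ = ε ^ (2 ^ n) := by field_simp
  exact le_of_pow_le_pow_left₀ (by positivity) hε.le hfin

end Pool.Agent.Y317.PSP
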